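import Pool.Agent.H242.LD.Stm2

set_option autoImplicit false

/-!
# Mass distribution on a tree of intervals (LE-TREE2 for helper242)
-/

namespace Pool.Agent.H376.LE

open Set Metric Filter Topology
open scoped ENNReal NNReal

/-- the cost of the members of the cover which meet `[s, t]` -/
noncomputable def cost (U : ℕ → Set ℝ) (e s t : ℝ) : ℝ≥0∞ :=
  ∑' i, (open Classical in if (U i ∩ Icc s t).Nonempty then (ediam (U i)) ^ e else 0)

/-- `[s, t]` is expensive -/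
def Q (U : ℕ → Set ℝ) (c e s t : ℝ) : Prop := ENNReal.ofReal ((c * (t - s)) ^ e) ≤ cost U e s t

lemma term_le_cost (U : ℕ → Set ℝ) (e s t : ℝ) (i : ℕ) (h : (U i ∩ Icc s t).Nonempty) :
    (ediam (U i)) ^ e ≤ cost U e s t := by
  classical
  have h1 := ENNReal.le_tsum (f := fun i => (open Classical in if (U i ∩ Icc s t).Nonempty then (ediam (U i)) ^ e else 0)) i
  simp only [h, if_true] at h1
  exact h1

lemma cost_le (U : ℕ → Set ℝ) (e s t : ℝ) : cost U e s t ≤ ∑' i, (ediam (U i)) ^ e := by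
  classical
  refine ENNReal.tsum_le_tsum fun i => ?_
  split_ifs
  · exact le_rfl
  · exact zero_le

lemma big (U : ℕ → Set ℝ) (c e s t : ℝ) (he : 0 < e) (hpos : 0 ≤ c * (t - s)) (i : ℕ)
    (h : (U i ∩ Icc s t).Nonempty) (hd : ENNReal.ofReal (c * (t - s)) ≤ ediam (U i)) : Q U c e s t := by
  refine le_trans ?_ (term_le_cost U e s t i h)
  rw [← ENNReal.ofReal_rpow_of_nonneg hpos he.le]
  exact ENNReal.rpow_le_rpow hd he.le

lemma q_of_subset (U : ℕ → Set ℝ) (c e s t : ℝ) (hc : 0 < c) (hc1 : c ≤ 1) (he : 0 < e) (hst : s < t) (i : ℕ)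
    (h : Icc s t ⊆ U i) : Q U c e s t := by
  refine big U c e s t he (mul_nonneg hc.le (by linarith)) i ⟨s, h ⟨le_rfl, hst.le⟩, ⟨le_rfl, hst.le⟩⟩ ?_
  have h1 : ediam (Icc s t) ≤ ediam (U i) := ediam_mono h
  rw [Real.ediam_Icc] at h1
  refine le_trans (ENNReal.ofReal_le_ofReal ?_) h1
  nlinarith

lemma q_of_children (U : ℕ → Set ℝ) (c e s t : ℝ) (hc : 0 < c) (he : 0 < e) (hst : s < t)
    (N : ℕ) (u v : Fin N → ℝ) (hs : ∀ i, s ≤ u i) (ht : ∀ i, v i ≤ t) (huv : ∀ i, u i < v i)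
    (hsep : ∀ i j, i ≠ j → ∀ z ∈ Icc (u i) (v i), ∀ z' ∈ Icc (u j) (v j), c * (t - s) ≤ |z - z'|)
    (hsum : (t - s) ^ e ≤ ∑ i, (v i - u i) ^ e)
    (hQ : ∀ i, Q U c e (u i) (v i)) : Q U c e s t := by
  classical
  have hpos : 0 ≤ c * (t - s) := mul_nonneg hc.le (by linarith)
  by_cases hA : ∃ j, ∃ i i' : Fin N, i ≠ i' ∧ (U j ∩ Icc (u i) (v i)).Nonempty ∧ (U j ∩ Icc (u i') (v i')).Nonempty
  · obtain ⟨j, i, i', hne, ⟨z, hzU, hz⟩, ⟨z', hzU', hz'⟩⟩ := hA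
    refine big U c e s t he hpos j ⟨z, hzU, ⟨(hs i).trans hz.1, hz.2.trans (ht i)⟩⟩ ?_
    have h1 : edist z z' ≤ ediam (U j) := edist_le_ediam_of_mem hzU hzU'
    rw [edist_dist, Real.dist_eq] at h1
    exact le_trans (ENNReal.ofReal_le_ofReal (hsep i i' hne z hz z' hz')) h1
  · push Not at hA
    have h1 : ENNReal.ofReal ((c * (t - s)) ^ e) ≤ ∑ i, ENNReal.ofReal ((c * (v i - u i)) ^ e) := by
      rw [← ENNReal.ofReal_sum_of_nonneg]
      · refine ENNReal.ofReal_le_ofReal ?_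
        have h2 : ∀ i, (c * (v i - u i)) ^ e = c ^ e * (v i - u i) ^ e := fun i =>
          Real.mul_rpow hc.le (by linarith [huv i])
        rw [Real.mul_rpow hc.le (by linarith : (0:ℝ) ≤ t - s)]
        simp only [h2]
        rw [← Finset.mul_sum]
        exact mul_le_mul_of_nonneg_left hsum (Real.rpow_nonneg hc.le _)
      · intro i _
        exact Real.rpow_nonneg (mul_nonneg hc.le (by linarith [huv i])) _
    have h2 : ∑ i, ENNReal.ofReal ((c * (v i - u i)) ^ e) ≤ ∑ i, cost U e (u i) (v i) :=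
      Finset.sum_le_sum fun i _ => hQ i
    have h3 : ∑ i, cost U e (u i) (v i) ≤ cost U e s t := by
      unfold cost
      rw [← Summable.tsum_finsetSum (fun i _ => ENNReal.summable)]
      refine ENNReal.tsum_le_tsum fun j => ?_
      by_cases hj : ∃ i : Fin N, (U j ∩ Icc (u i) (v i)).Nonempty
      · obtain ⟨i, hi⟩ := hj
        have hst' : (U j ∩ Icc s t).Nonempty := by
          obtain ⟨z, hzU, hz⟩ := hi
          exact ⟨z, hzU, ⟨(hs i).trans hz.1, hz.2.trans (ht i)⟩⟩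
        rw [Finset.sum_eq_single i]
        · simp only [hi, hst', if_true]
          exact le_rfl
        · intro i' _ hne
          have h4 := hA j i i' (fun h => hne h.symm) hi
          rw [if_neg]
          rw [h4]
          exact Set.not_nonempty_empty
        · intro h
          exact absurd (Finset.mem_univ i) h
      · push Not at hj
        rw [Finset.sum_eq_zero]
        · exact zero_le
        · intro i _
          rw [if_neg]
          rw [hj i]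
          exact Set.not_nonempty_empty
    exact h1.trans (h2.trans h3)

lemma exists_open (T : Set ℝ) (e : ℝ) (he : 0 < e) (η : ℝ≥0∞) (hη : 0 < η) :
    ∃ U : Set ℝ, IsOpen U ∧ T ⊆ U ∧ (ediam U) ^ e ≤ (ediam T) ^ e + η := by
  by_cases htop : ediam T = ⊤
  · refine ⟨univ, isOpen_univ, subset_univ _, ?_⟩
    rw [htop, ENNReal.top_rpow_of_pos he, top_add]
    exact le_top
  · have hlt : (ediam T + 2 * ((0 : ℝ≥0) : ℝ≥0∞)) ^ e < (ediam T) ^ e + η := by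
      rw [ENNReal.coe_zero, mul_zero, add_zero]
      exact ENNReal.lt_add_right (ENNReal.rpow_ne_top_of_nonneg he.le htop) hη.ne'
    have hcont : Continuous fun δ : ℝ≥0 => (ediam T + 2 * (δ : ℝ≥0∞)) ^ e := by
      refine ENNReal.continuous_rpow_const.comp ?_
      exact continuous_const.add ((ENNReal.continuous_const_mul (by simp)).comp ENNReal.continuous_coe)
    have hev : ∀ᶠ δ : ℝ≥0 in 𝓝 0, (ediam T + 2 * (δ : ℝ≥0∞)) ^ e < (ediam T) ^ e + η :=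
      (hcont.tendsto 0).eventually_lt_const hlt
    have hev2 : ∀ᶠ δ : ℝ≥0 in 𝓝[>] 0, (ediam T + 2 * (δ : ℝ≥0∞)) ^ e < (ediam T) ^ e + η :=
      nhdsWithin_le_nhds hev
    obtain ⟨δ, hδ1, hδ2⟩ := (hev2.and self_mem_nhdsWithin).exists
    refine ⟨thickening δ T, isOpen_thickening, self_subset_thickening (by exact_mod_cast hδ2) T, ?_⟩
    refine le_trans (ENNReal.rpow_le_rpow (ediam_thickening_le δ) he.le) hδ1.le

lemma open_case (P : ℕ → ℝ → ℝ → Prop) (c e s₀ t₀ : ℝ) (hc : 0 < c) (hc1 : c ≤ 1) (he : 0 < e)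
    (hP : ∀ n s t, P n s t → s < t)
    (hch : ∀ n s t, P n s t → ∃ (N : ℕ) (u v : Fin N → ℝ),
      (∀ i, s ≤ u i ∧ v i ≤ t ∧ v i - u i ≤ (t - s) / 2 ∧ P (n + 1) (u i) (v i)) ∧
      (∀ i j, i ≠ j → ∀ z ∈ Icc (u i) (v i), ∀ z' ∈ Icc (u j) (v j), c * (t - s) ≤ |z - z'|) ∧
      (t - s) ^ e ≤ ∑ i, (v i - u i) ^ e)
    (h0 : P 0 s₀ t₀) (U : ℕ → Set ℝ) (hU : ∀ i, IsOpen (U i))
    (hcov : {x : ℝ | x ∈ Icc s₀ t₀ ∧ ∀ n, ∃ s t, P n s t ∧ x ∈ Icc s t} ⊆ ⋃ i, U i) :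
    ENNReal.ofReal ((c * (t₀ - s₀)) ^ e) ≤ ∑' i, (ediam (U i)) ^ e := by
  refine le_trans ?_ (cost_le U e s₀ t₀)
  by_contra hcon
  have hQ0 : ¬ Q U c e s₀ t₀ := hcon
  have hstep : ∀ (n : ℕ) (q : ℝ × ℝ), ∃ q' : ℝ × ℝ, P n q.1 q.2 ∧ ¬ Q U c e q.1 q.2 →
      q.1 ≤ q'.1 ∧ q'.2 ≤ q.2 ∧ q'.2 - q'.1 ≤ (q.2 - q.1) / 2 ∧ P (n + 1) q'.1 q'.2 ∧ ¬ Q U c e q'.1 q'.2 := by
    intro n q
    by_cases h : P n q.1 q.2 ∧ ¬ Q U c e q.1 q.2
    · obtain ⟨hPn, hnQ⟩ := h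
      obtain ⟨N, u, v, h1, h2, h3⟩ := hch n q.1 q.2 hPn
      by_cases hall : ∀ i, Q U c e (u i) (v i)
      · exact absurd (q_of_children U c e q.1 q.2 hc he (hP n _ _ hPn) N u v (fun i => (h1 i).1) (fun i => (h1 i).2.1)
          (fun i => hP _ _ _ (h1 i).2.2.2) h2 h3 hall) hnQ
      · push Not at hall
        obtain ⟨i, hi⟩ := hall
        exact ⟨(u i, v i), fun _ => ⟨(h1 i).1, (h1 i).2.1, (h1 i).2.2.1, (h1 i).2.2.2, hi⟩⟩
    · exact ⟨q, fun h' => absurd h' h⟩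
  choose nx hnx using hstep
  let sq : ℕ → ℝ × ℝ := fun n => Nat.rec (s₀, t₀) (fun n q => nx n q) n
  have hsq0 : sq 0 = (s₀, t₀) := rfl
  have hsqs : ∀ n, sq (n + 1) = nx n (sq n) := fun n => rfl
  have hinv : ∀ n, P n (sq n).1 (sq n).2 ∧ ¬ Q U c e (sq n).1 (sq n).2 := by
    intro n
    induction n with
    | zero => exact ⟨h0, hQ0⟩
    | succ n ih =>
      rw [hsqs n]
      exact (hnx n (sq n) ih).2.2.2
  have hst : ∀ n, (sq n).1 ≤ (sq (n + 1)).1 ∧ (sq (n + 1)).2 ≤ (sq n).2 ∧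
      (sq (n + 1)).2 - (sq (n + 1)).1 ≤ ((sq n).2 - (sq n).1) / 2 := by
    intro n
    rw [hsqs n]
    have h := hnx n (sq n) (hinv n)
    exact ⟨h.1, h.2.1, h.2.2.1⟩
  have hmono : Monotone fun n => (sq n).1 := monotone_nat_of_le_succ fun n => (hst n).1
  have hanti : Antitone fun n => (sq n).2 := antitone_nat_of_succ_le fun n => (hst n).2.1
  have hle : (fun n => (sq n).1) ≤ fun n => (sq n).2 := fun n => (hP _ _ _ (hinv n).1).le
  have hx := Monotone.ciSup_mem_iInter_Icc_of_antitone hmono hanti hle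
  set x : ℝ := ⨆ n, (sq n).1 with hxdef
  have hx' : ∀ n, x ∈ Icc (sq n).1 (sq n).2 := fun n => mem_iInter.1 hx n
  have hlen : ∀ n, (sq n).2 - (sq n).1 ≤ (t₀ - s₀) * (1 / 2) ^ n := by
    intro n
    induction n with
    | zero => rw [hsq0]; simp
    | succ n ih =>
      have := (hst n).2.2
      rw [pow_succ]
      linarith
  have hxL : x ∈ {x : ℝ | x ∈ Icc s₀ t₀ ∧ ∀ n, ∃ s t, P n s t ∧ x ∈ Icc s t} :=
    ⟨hx' 0, fun n => ⟨(sq n).1, (sq n).2, (hinv n).1, hx' n⟩⟩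
  obtain ⟨i, hi⟩ := mem_iUnion.1 (hcov hxL)
  obtain ⟨δ, hδ, hball⟩ := Metric.isOpen_iff.1 (hU i) x hi
  have hlim : Tendsto (fun n : ℕ => (t₀ - s₀) * (1 / 2 : ℝ) ^ n) atTop (𝓝 ((t₀ - s₀) * 0)) :=
    (tendsto_pow_atTop_nhds_zero_of_lt_one (by norm_num) (by norm_num)).const_mul _
  rw [mul_zero] at hlim
  obtain ⟨n, hn⟩ := (hlim.eventually_lt_const hδ).exists
  refine (hinv n).2 (q_of_subset U c e _ _ hc hc1 he (hP _ _ _ (hinv n).1) i ?_)
  intro y hy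
  refine hball ?_
  rw [Metric.mem_ball, Real.dist_eq, abs_lt]
  have h1 := hx' n
  have h2 := hlen n
  constructor
  · linarith [hy.1, hy.2, h1.1, h1.2]
  · linarith [hy.1, hy.2, h1.1, h1.2]

theorem le_TREE2 : Pool.Agent.H242.LD.S_TREE2 := by
  intro P c e s₀ t₀ hc hc1 he hP hch h0 T hcov
  refine ENNReal.le_of_forall_pos_le_add fun ε hε _ => ?_
  obtain ⟨ε', hε', hsum⟩ := ENNReal.exists_pos_sum_of_countable' (ε := (ε : ℝ≥0∞)) (by exact_mod_cast hε.ne') ℕ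
  choose U hU hTU hdU using fun i => exists_open (T i) e he (ε' i) (hε' i)
  have h1 := open_case P c e s₀ t₀ hc hc1 he hP hch h0 U hU (hcov.trans (iUnion_mono hTU))
  refine h1.trans ?_
  refine (ENNReal.tsum_le_tsum hdU).trans ?_
  rw [ENNReal.tsum_add]
  exact add_le_add le_rfl hsum.le

end Pool.Agent.H376.LE
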